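import Pool.Agent.H71.CR.Stmt
import Pool.Agent.H75.TK.SC1
import Pool.Agent.H75.TK.SC2
import Pool.Agent.H75.TK.SCO

/-!
# FIMP: isomorphism of a piece with a fixed triple is Borel
-/

set_option autoImplicit false

open Set Pool.Agent.TK Pool.Agent.H71.VK

namespace Pool.Agent.CR

lemma h81_bfp {C : Type} [MeasurableSpace C] [StandardBorelSpace C] (hMST : T_MST C) (π : Pr)
    (N : St (C × ℕ)) (E : Set ℕ) (r : Rk) (p : List (ℕ × ℕ)) :
    MeasurableSet {M : St (C × ℕ) | bf M N (st (bn M) π) E r p} := by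
  induction r generalizing p with
  | zero => exact measurableSet_PI N p
  | sup f ih =>
    have h1 : {M : St (C × ℕ) | bf M N (st (bn M) π) E (Rk.sup f) p} =
        ⋂ n, ({M : St (C × ℕ) | bf M N (st (bn M) π) E (f n) p} ∩
          ((⋂ a, ({M : St (C × ℕ) | a ∈ st (bn M) π}ᶜ ∪
            ⋃ b, ⋃ _ : b ∈ E, {M : St (C × ℕ) | bf M N (st (bn M) π) E (f n) ((a, b) :: p)})) ∩
          ⋂ b, ⋂ _ : b ∈ E, ⋃ a, ({M : St (C × ℕ) | a ∈ st (bn M) π} ∩
            {M : St (C × ℕ) | bf M N (st (bn M) π) E (f n) ((a, b) :: p)}))) := by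
      ext M
      simp only [bf, mem_ofPred_eq, mem_inter_iff, mem_iInter, mem_union, mem_compl_iff,
        mem_iUnion, exists_prop, imp_iff_not_or]
    rw [h1]
    refine MeasurableSet.iInter fun n => (ih n p).inter (MeasurableSet.inter ?_ ?_)
    · refine MeasurableSet.iInter fun a => ((hMST π).1 a).compl.union ?_
      exact MeasurableSet.iUnion fun b => MeasurableSet.iUnion fun _ => ih n _
    · refine MeasurableSet.iInter fun b => MeasurableSet.iInter fun _ =>
        MeasurableSet.iUnion fun a => ((hMST π).1 a).inter (ih n _)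

theorem pf_FIMP {C : Type} [MeasurableSpace C] [StandardBorelSpace C] (hMST : T_MST C) :
    T_FIMP C := by
  intro a π N b E
  obtain ⟨r, hr⟩ := pf_SCO pf_SC1 pf_SC2 N b E
  have h1 : {M : St (C × ℕ) | FI M a (st (bn M) π) N b E} =
      {_M : St (C × ℕ) | a.length = b.length} ∩
        {M : St (C × ℕ) | bf M N (st (bn M) π) E r (a.zip b)} := by
    ext M
    constructor
    · intro h
      exact h.fb r
    · intro h
      have h2 : FB r M a (st (bn M) π) N b E := h
      exact (hr M a _ h2.symm).symm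
  rw [h1]
  exact (MeasurableSet.const _).inter (h81_bfp hMST π N E r _)

end Pool.Agent.CR
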