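import Pool.Agent.H71.CR.Stmt

/-!
# MBV: the class of the structures with bounded labels is Borel
-/

set_option autoImplicit false

open Set Pool.Agent.TK Pool.Agent.H71.VK

namespace Pool.Agent.CR

theorem pf_MBV {C : Type} [MeasurableSpace C] [StandardBorelSpace C] : T_MBV C := by
  intro c0 n
  have h : {M : St (C × ℕ) | BV c0 n M} =
      (⋂ u, ⋂ v, {M : St (C × ℕ) | M.1 u v = decide (u ≠ v)}) ∩
      ((⋂ l : List ℕ, ⋂ _ : l.length ≠ 1, {M : St (C × ℕ) | (M.2 l).1 = c0}) ∩
      ((⋂ l : List ℕ, {M : St (C × ℕ) | (M.2 l).2 < n.1}) ∩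
      ⋂ l : List ℕ, ⋂ _ : n.2 < l.length, {M : St (C × ℕ) | (M.2 l).2 = 0})) := by
    ext M
    simp only [mem_ofPred_eq, mem_inter_iff, mem_iInter]
    constructor
    · rintro ⟨h1, h2, h3⟩
      exact ⟨h1, h2, h3.bd, h3.ar⟩
    · rintro ⟨h1, h2, h3, h4⟩
      exact ⟨h1, h2, ⟨h3, h4⟩⟩
  rw [h]
  refine MeasurableSet.inter (MeasurableSet.iInter fun u => MeasurableSet.iInter fun v => ?_)
    (MeasurableSet.inter (MeasurableSet.iInter fun l => MeasurableSet.iInter fun _ => ?_)
    (MeasurableSet.inter (MeasurableSet.iInter fun l => ?_)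
    (MeasurableSet.iInter fun l => MeasurableSet.iInter fun _ => ?_)))
  · exact measurable_edge u v (measurableSet_singleton _)
  · exact (measurable_fst.comp (measurable_value l)) (measurableSet_singleton _)
  · exact (measurable_snd.comp (measurable_value l))
      (MeasurableSet.of_discrete (s := {k : ℕ | k < n.1}))
  · exact (measurable_snd.comp (measurable_value l)) (measurableSet_singleton _)

end Pool.Agent.CR
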