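import Pool.Agent.H71.CR.Stmt

/-!
# MST: membership in pieces and validity of presentations are Borel
-/

set_option autoImplicit false

open Set Pool.Agent.TK Pool.Agent.H71.VK

namespace Pool.Agent.CR

section

variable {Ω : Type} [MeasurableSpace Ω] {c : Ω → Lf}

lemma h81_eq (hc : ∀ l, Measurable fun M => c M l) (l l' : List ℕ) :
    Measurable fun M => c M l = c M l' :=
  measurableSet_setOfPred.1 (measurableSet_eq_fun (hc l) (hc l'))

lemma h81_Pl (hc : ∀ l, Measurable fun M => c M l) (p : List (ℕ × ℕ)) :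
    Measurable fun M => Pl (c M) (c M) p :=
  Measurable.forall fun _ => measurable_const.imp (h81_eq hc _ _)

lemma h81_all {A : Ω → Set ℕ} (hA : ∀ x, Measurable fun M => x ∈ A M) (u : List ℕ) :
    Measurable fun M => ∀ z ∈ u, z ∈ A M :=
  Measurable.forall fun z => measurable_const.imp (hA z)

lemma h81_Ur {P : Ω → Set ℕ} (hP : ∀ x, Measurable fun M => x ∈ P M) (L : List ℕ) (x : ℕ) :
    Measurable fun M => x ∈ Ur (P M) L :=
  (hP x).and measurable_const

lemma h81_Cc (hc : ∀ l, Measurable fun M => c M l) (L : List ℕ) (F : Ed) (U Z : Set ℕ) :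
    Measurable fun M => Cc (c M) L F U Z := by
  have e : (fun M => Cc (c M) L F U Z) = fun M => (Z ⊆ U) ∧
      (∀ p : List (ℕ × ℕ), (∀ z ∈ p, z.1 ∈ Z ∧ z.2 ∈ Z) → Pl (c M) (c M) (dg L ++ p) →
        ∀ D : List ℕ, (∀ x ∈ D, x ∈ U ∧ x ∉ Z) → Pl (c M) (c M) (dg D ++ (dg L ++ p))) ∧
      (∀ e : List ℕ, e ∈ F → ∀ d : List ℕ, d.length = e.length → (∀ x ∈ d, x ∈ U) →
        Pl (c M) (c M) (dg L ++ d.zip e) → (∃ x ∈ d, x ∈ Z) → ∀ x ∈ d, x ∈ Z) :=
    funext fun M => propext ⟨fun h => ⟨h.1, h.2, h.3⟩, fun h => ⟨h.1, h.2.1, h.2.2⟩⟩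
  rw [e]
  exact measurable_const.and ((Measurable.forall fun p => measurable_const.imp
    ((h81_Pl hc _).imp (Measurable.forall fun D => measurable_const.imp (h81_Pl hc _)))).and
    (Measurable.forall fun e => measurable_const.imp (Measurable.forall fun d =>
      measurable_const.imp (measurable_const.imp ((h81_Pl hc _).imp measurable_const)))))

lemma h81_clms (c : Lf) (W L : List ℕ) (F : Ed) (x : Xr) (y : ℕ) :
    y ∈ cl c (ms W) L F x ↔ (y ∈ Ur (ms W) L ∧ ∀ Z : List ℕ, Cc c L F (Ur (ms W) L) (ms Z) →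
      (∀ a ∈ x.1, a ∈ ms Z) → y ∈ ms Z) := by
  classical
  constructor
  · rintro ⟨h1, h2⟩
    exact ⟨h1, fun Z => h2 (ms Z)⟩
  · rintro ⟨h1, h2⟩
    refine ⟨h1, fun Z hZ hx => ?_⟩
    have e : ms (W.filter fun a => a ∈ Z) = Z := by
      ext a
      rw [mem_ms, List.mem_filter, decide_eq_true_iff]
      refine ⟨fun h => h.2, fun h => ⟨?_, h⟩⟩
      have h3 := (hZ.sub h).1
      rwa [mem_ms] at h3
    have h3 := h2 (W.filter fun a => a ∈ Z)
    rw [e] at h3
    exact h3 hZ hx

lemma h81_clW (hc : ∀ l, Measurable fun M => c M l) (W L : List ℕ) (F : Ed) (x : Xr) (y : ℕ) :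
    Measurable fun M => y ∈ cl (c M) (ms W) L F x := by
  have e : (fun M => y ∈ cl (c M) (ms W) L F x) = fun M => (y ∈ Ur (ms W) L ∧ ∀ Z : List ℕ,
      Cc (c M) L F (Ur (ms W) L) (ms Z) → (∀ a ∈ x.1, a ∈ ms Z) → y ∈ ms Z) :=
    funext fun M => propext (h81_clms (c M) W L F x y)
  rw [e]
  exact measurable_const.and (Measurable.forall fun Z => (h81_Cc hc _ _ _ _).imp measurable_const)

lemma h81_cl (hCLF : T_CLF) (hc : ∀ l, Measurable fun M => c M l) {P : Ω → Set ℕ}
    (hP : ∀ x, Measurable fun M => x ∈ P M) (L : List ℕ) (F : Ed) (x : Xr) (y : ℕ) :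
    Measurable fun M => y ∈ cl (c M) (P M) L F x := by
  have e : (fun M => y ∈ cl (c M) (P M) L F x) = fun M =>
      ((∀ a ∈ x.1, a ∈ Ur (P M) L) ∧ ∃ W : List ℕ, (∀ a ∈ W, a ∈ Ur (P M) L) ∧
        (∀ a ∈ x.1, a ∈ W) ∧ y ∈ cl (c M) (ms W) L F x) ∨
      (¬ (∀ a ∈ x.1, a ∈ Ur (P M) L) ∧ y ∈ Ur (P M) L) := by
    funext M
    apply propext
    by_cases hb : ∀ a ∈ x.1, a ∈ Ur (P M) L
    · rw [hCLF (c M) (P M) L F x hb y]
      constructor
      · intro h
        exact Or.inl ⟨hb, h⟩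
      · rintro (h | h)
        · exact h.2
        · exact absurd hb h.1
    · constructor
      · intro h
        exact Or.inr ⟨hb, h.1⟩
      · rintro (h | h)
        · exact absurd h.1 hb
        · refine ⟨h.2, fun Z hZ hx => ?_⟩
          exact absurd (fun a ha => hZ.sub (hx a ha)) hb
  rw [e]
  have hb : Measurable fun M => ∀ a ∈ x.1, a ∈ Ur (P M) L := h81_all (h81_Ur hP L) x.1
  exact (hb.and (Measurable.exists fun W => (h81_all (h81_Ur hP L) W).and
    (measurable_const.and (h81_clW hc W L F x y)))).or (hb.not.and (h81_Ur hP L y))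

lemma h81_co (hCLF : T_CLF) (hc : ∀ l, Measurable fun M => c M l) {P : Ω → Set ℕ}
    (hP : ∀ x, Measurable fun M => x ∈ P M) (L : List ℕ) (F : Ed) (x : Xr) (y : ℕ) :
    Measurable fun M => y ∈ co (c M) (P M) L F x :=
  (hP y).and (measurable_const.and (h81_cl hCLF hc hP L F x y).not)

lemma h81_Rr (hCLF : T_CLF) (hc : ∀ l, Measurable fun M => c M l) {P : Ω → Set ℕ}
    (hP : ∀ x, Measurable fun M => x ∈ P M) (L : List ℕ) (F : Ed) (x : Xr) :
    Measurable fun M => Rr (c M) (P M) L F x := by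
  refine Measurable.and (h81_all (h81_cl hCLF hc hP L F x) x.2) ?_
  refine Measurable.forall fun q => Measurable.imp ?_ ?_
  · exact Measurable.forall fun z => measurable_const.imp
      ((h81_co hCLF hc hP L F x z.1).and (h81_co hCLF hc hP L F x z.2))
  · exact (h81_Pl hc _).imp (Measurable.forall fun D =>
      (h81_all (h81_cl hCLF hc hP L F x) D).imp (h81_Pl hc _))

end

theorem pf_MST {C : Type} [MeasurableSpace C] (hCLF : T_CLF) : T_MST C := by
  have hc : ∀ l, Measurable fun M : St (C × ℕ) => bn M l :=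
    fun l => measurable_snd.comp (measurable_value l)
  intro π
  induction π with
  | nil => exact ⟨fun x => MeasurableSet.const _, MeasurableSet.const _⟩
  | cons s π ih =>
    obtain ⟨ih1, ih2⟩ := ih
    have hP : ∀ x, Measurable fun M : St (C × ℕ) => x ∈ st (bn M) π :=
      fun x => measurableSet_setOfPred.1 (ih1 x)
    have hV : Measurable fun M : St (C × ℕ) => Vd (bn M) π := measurableSet_setOfPred.1 ih2
    obtain ⟨S, F, x, β⟩ := s
    constructor
    · intro y
      cases β with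
      | true => exact measurableSet_setOfPred.2 (h81_cl hCLF hc hP _ _ _ _)
      | false => exact measurableSet_setOfPred.2 (h81_co hCLF hc hP _ _ _ _)
    · refine measurableSet_setOfPred.2 (hV.and ((h81_all hP S).and (Measurable.and ?_
        ((h81_all (h81_Ur hP _) x.1).and (h81_Rr hCLF hc hP _ _ _)))))
      exact Measurable.forall fun e => measurable_const.imp (h81_all (h81_Ur hP _) e)

end Pool.Agent.CR
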